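import Pool.Agent.H171R2.Tri.Core

set_option autoImplicit false

/-!
# The packing for a weighted point set (task T2)
-/

namespace Pool.Agent.H171R2.Tri.T2

open Finset

noncomputable section

/-- triangles: `(false, (x,y))` has corners `(x,y), (x+1,y), (x,y+1)`, and `(true, (x,y))` has corners
`(x+1,y), (x+1,y+1), (x,y+1)` -/
abbrev Tr := Bool × Pt

/-- the triangle with corners `v, v + e k, v + e (k+1)` -/
def t (v : Pt) (k : ZMod 6) : Tr :=
  (![(false, (v.1, v.2)), (true, (v.1 - 1, v.2)), (false, (v.1 - 1, v.2)),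
    (true, (v.1 - 1, v.2 - 1)), (false, (v.1, v.2 - 1)), (true, (v.1, v.2 - 1))] : Fin 6 → Tr) k

lemma cases6 (k : ZMod 6) : k = 0 ∨ k = 1 ∨ k = 2 ∨ k = 3 ∨ k = 4 ∨ k = 5 := by
  revert k; decide

lemma t_compat (v : Pt) (k : ZMod 6) : t (v + e k) (k + 2) = t v k := by
  obtain ⟨x, y⟩ := v
  rcases cases6 k with rfl | rfl | rfl | rfl | rfl | rfl
  · change ((false, (x + 1 - 1, y + 0)) : Tr) = (false, (x, y))
    simp
  · change ((true, (x + 0 - 1, y + 1 - 1)) : Tr) = (true, (x - 1, y))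
    simp
  · change ((false, (x + (-1), y + 1 - 1)) : Tr) = (false, (x - 1, y))
    simp [sub_eq_add_neg]
  · change ((true, (x + (-1), y + 0 - 1)) : Tr) = (true, (x - 1, y - 1))
    simp [sub_eq_add_neg]
  · change ((false, (x + 0, y + (-1))) : Tr) = (false, (x, y - 1))
    simp [sub_eq_add_neg]
  · change ((true, (x + 1 - 1, y + (-1))) : Tr) = (true, (x, y - 1))
    simp [sub_eq_add_neg]

lemma e_opp (k : ZMod 6) : e (k + 3) = - e k := by
  revert k; decide

lemma add_opp (v : Pt) (k : ZMod 6) : v + e k + e (k + 3) = v := by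
  rw [e_opp]; simp

lemma t_compat' (v : Pt) (k : ZMod 6) : t (v + e k) (k + 3) = t v (k - 1) := by
  have h := t_compat (v + e k) (k + 3)
  rw [add_opp] at h
  rw [← h]
  congr 1
  have : ∀ k : ZMod 6, k + 3 + 2 = k - 1 := by decide
  exact this k

lemma t0 (v : Pt) : t v 0 = (false, (v.1, v.2)) := rfl
lemma t1 (v : Pt) : t v 1 = (true, (v.1 - 1, v.2)) := rfl
lemma t2 (v : Pt) : t v 2 = (false, (v.1 - 1, v.2)) := rfl
lemma t5 (v : Pt) : t v 5 = (true, (v.1, v.2 - 1)) := rfl

/-! ### The finite graph -/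

/-- patch triangles -/
def PT (m : ℕ) : Finset Tr := univ ×ˢ (Ico (-(m : ℤ)) m ×ˢ Ico (-(m : ℤ)) m)

/-- base points of edges -/
def BX (m : ℕ) : Finset Pt := Icc (-(m : ℤ)) m ×ˢ Icc (-(m : ℤ)) m

/-- edges -/
def EB (m : ℕ) : Finset (Pt × ZMod 6) := BX m ×ˢ ({0, 1, 2} : Finset (ZMod 6))

abbrev NN (m : ℕ) : Type := Option {x // x ∈ PT m}

abbrev EE (m : ℕ) : Type := {b // b ∈ EB m}

lemma mem_PT {m : ℕ} {x : Tr} : x ∈ PT m ↔
    (-(m : ℤ) ≤ x.2.1 ∧ x.2.1 < m) ∧ (-(m : ℤ) ≤ x.2.2 ∧ x.2.2 < m) := by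
  simp [PT, Finset.mem_product]

lemma mem_BX {m : ℕ} {v : Pt} : v ∈ BX m ↔
    (-(m : ℤ) ≤ v.1 ∧ v.1 ≤ m) ∧ (-(m : ℤ) ≤ v.2 ∧ v.2 ≤ m) := by
  simp [BX, Finset.mem_product]

lemma mem_EB {m : ℕ} {b : Pt × ZMod 6} : b ∈ EB m ↔
    b.1 ∈ BX m ∧ (b.2 = 0 ∨ b.2 = 1 ∨ b.2 = 2) := by
  simp [EB, Finset.mem_product]

/-- the node of a triangle -/
def nd (m : ℕ) (x : Tr) : NN m := if h : x ∈ PT m then some ⟨x, h⟩ else none

lemma nd_eq_some {m : ℕ} {x y : Tr} (hy : y ∈ PT m) : nd m x = some ⟨y, hy⟩ ↔ x = y := by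
  unfold nd
  constructor
  · intro h
    split_ifs at h with hx
    · simpa using h
  · rintro rfl
    rw [dif_pos hy]

lemma nd_eq_none {m : ℕ} {x : Tr} (hx : x ∉ PT m) : nd m x = none := by
  unfold nd
  rw [dif_neg hx]

/-- the planar dual graph of the patch -/
def GG (m : ℕ) : MG (NN m) (EE m) :=
  ⟨fun f => nd m (t f.1.1 f.1.2), fun f => nd m (t f.1.1 (f.1.2 - 1))⟩

/-- incidence modulo 2 -/
def inc (m : ℕ) (b : Pt × ZMod 6) (x : NN m) : ZMod 2 :=
  (if nd m (t b.1 b.2) = x then 1 else 0) + (if nd m (t b.1 (b.2 - 1)) = x then 1 else 0)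

/-- boundary of a chain -/
def bj (m : ℕ) (j : Pt × ZMod 6 → ZMod 2) (x : NN m) : ZMod 2 := ∑ b ∈ EB m, j b * inc m b x

lemma bj_eq (m : ℕ) (j : Pt × ZMod 6 → ZMod 2) (x : NN m) : bj m j x =
    ∑ v ∈ BX m, (j (v, 0) * ((if nd m (t v 0) = x then 1 else 0) +
      (if nd m (t v 5) = x then 1 else 0)) +
      j (v, 1) * ((if nd m (t v 1) = x then 1 else 0) + (if nd m (t v 0) = x then 1 else 0)) +
      j (v, 2) * ((if nd m (t v 2) = x then 1 else 0) + (if nd m (t v 1) = x then 1 else 0))) := by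
  unfold bj EB
  rw [Finset.sum_product]
  refine Finset.sum_congr rfl fun v _ => ?_
  rw [Finset.sum_insert (by decide), Finset.sum_insert (by decide), Finset.sum_singleton,
    ← add_assoc]
  rfl

lemma bj_up (m : ℕ) (j : Pt × ZMod 6 → ZMod 2) (x y : ℤ) (h : ((false, (x, y)) : Tr) ∈ PT m) :
    bj m j (some ⟨_, h⟩) = j ((x, y), 0) + j ((x, y), 1) + j ((x + 1, y), 2) := by
  have hm := mem_PT.1 h
  simp only at hm
  have h1 : ((x, y) : Pt) ∈ BX m := mem_BX.2 (by simp only; omega)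
  have h2 : ((x + 1, y) : Pt) ∈ BX m := mem_BX.2 (by simp only; omega)
  rw [bj_eq]
  have e0 : ∀ v : Pt, (nd m (t v 0) = some ⟨_, h⟩) ↔ v = (x, y) := fun v => by
    rw [nd_eq_some h, t0]
    simp
  have e1 : ∀ v : Pt, ¬ (nd m (t v 1) = some ⟨_, h⟩) := fun v => by
    rw [nd_eq_some h, t1]
    simp
  have e5 : ∀ v : Pt, ¬ (nd m (t v 5) = some ⟨_, h⟩) := fun v => by
    rw [nd_eq_some h, t5]
    simp
  have e2 : ∀ v : Pt, (nd m (t v 2) = some ⟨_, h⟩) ↔ v = (x + 1, y) := fun v => by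
    rw [nd_eq_some h, t2]
    constructor
    · intro hv
      simp only [Prod.mk.injEq, true_and] at hv
      ext
      · simp only; omega
      · exact hv.2
    · rintro rfl
      simp
  simp only [e0, e1, e5, e2, if_false, add_zero, zero_add, mul_ite, mul_one, mul_zero,
    Finset.sum_add_distrib, Finset.sum_ite_eq', h1, h2, if_true]

lemma bj_down (m : ℕ) (j : Pt × ZMod 6 → ZMod 2) (x y : ℤ) (h : ((true, (x, y)) : Tr) ∈ PT m) :
    bj m j (some ⟨_, h⟩) = j ((x, y + 1), 0) + j ((x + 1, y), 1) + j ((x + 1, y), 2) := by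
  have hm := mem_PT.1 h
  simp only at hm
  have h1 : ((x, y + 1) : Pt) ∈ BX m := mem_BX.2 (by simp only; omega)
  have h2 : ((x + 1, y) : Pt) ∈ BX m := mem_BX.2 (by simp only; omega)
  rw [bj_eq]
  have e0 : ∀ v : Pt, ¬ (nd m (t v 0) = some ⟨_, h⟩) := fun v => by
    rw [nd_eq_some h, t0]
    simp
  have e2 : ∀ v : Pt, ¬ (nd m (t v 2) = some ⟨_, h⟩) := fun v => by
    rw [nd_eq_some h, t2]
    simp
  have e5 : ∀ v : Pt, (nd m (t v 5) = some ⟨_, h⟩) ↔ v = (x, y + 1) := fun v => by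
    rw [nd_eq_some h, t5]
    constructor
    · intro hv
      simp only [Prod.mk.injEq, true_and] at hv
      ext
      · exact hv.1
      · simp only; omega
    · rintro rfl
      simp
  have e1 : ∀ v : Pt, (nd m (t v 1) = some ⟨_, h⟩) ↔ v = (x + 1, y) := fun v => by
    rw [nd_eq_some h, t1]
    constructor
    · intro hv
      simp only [Prod.mk.injEq, true_and] at hv
      ext
      · simp only; omega
      · exact hv.2
    · rintro rfl
      simp
  simp only [e0, e1, e5, e2, if_false, add_zero, zero_add, mul_ite, mul_one, mul_zero,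
    Finset.sum_add_distrib, Finset.sum_ite_eq', h1, h2, if_true]

/-- the indicator of a set of edges -/
def ind {m : ℕ} (J : Finset (EE m)) (b : Pt × ZMod 6) : ZMod 2 :=
  if h : b ∈ EB m then (if (⟨b, h⟩ : EE m) ∈ J then 1 else 0) else 0

lemma ind_coe {m : ℕ} (J : Finset (EE m)) (f : EE m) : ind J f.1 = if f ∈ J then 1 else 0 := by
  unfold ind
  rw [dif_pos f.2]

lemma bd_eq {m : ℕ} (J : Finset (EE m)) (x : NN m) : (GG m).bd J x = bj m (ind J) x := by
  unfold bj
  rw [← Finset.sum_coe_sort (EB m) (fun b => ind J b * inc m b x)]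
  have h : ∀ f : EE m, ind J f.1 * inc m f.1 x = if f ∈ J then inc m f.1 x else 0 := fun f => by
    rw [ind_coe]
    split_ifs <;> simp
  simp only [h]
  rw [Finset.sum_ite_mem, Finset.univ_inter]
  rfl

/-! ### Connectedness -/

/-- there is a chain with boundary `x + y` -/
def Ch (m : ℕ) (x y : NN m) : Prop :=
  ∃ j : EE m → ZMod 2, ∀ z, ∑ f, j f * inc m f.1 z =
    (if x = z then 1 else 0) + (if y = z then 1 else 0)

lemma two_eq (a : ZMod 2) : a + a = 0 := by revert a; decide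

lemma Ch.refl {m : ℕ} (x : NN m) : Ch m x x := ⟨fun _ => 0, fun z => by simp [two_eq]⟩

lemma Ch.symm {m : ℕ} {x y : NN m} (h : Ch m x y) : Ch m y x := by
  obtain ⟨j, hj⟩ := h
  exact ⟨j, fun z => by rw [hj, add_comm]⟩

lemma Ch.trans {m : ℕ} {x y z : NN m} (h : Ch m x y) (h' : Ch m y z) : Ch m x z := by
  obtain ⟨j, hj⟩ := h
  obtain ⟨j', hj'⟩ := h'
  refine ⟨fun f => j f + j' f, fun u => ?_⟩
  simp only [add_mul, Finset.sum_add_distrib, hj, hj']
  have := two_eq (if y = u then (1 : ZMod 2) else 0)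
  linear_combination this

lemma Ch.edge {m : ℕ} {v : Pt} {k : ZMod 6} (h : (v, k) ∈ EB m) :
    Ch m (nd m (t v k)) (nd m (t v (k - 1))) := by
  classical
  refine ⟨Pi.single ⟨(v, k), h⟩ 1, fun z => ?_⟩
  rw [Finset.sum_eq_single (⟨(v, k), h⟩ : EE m)]
  · rw [Pi.single_eq_same, one_mul]
    rfl
  · intro f _ hf
    rw [Pi.single_eq_of_ne hf, zero_mul]
  · intro h'
    exact absurd (Finset.mem_univ _) h'

lemma ch_down {m : ℕ} (y : ℤ) (hy : -(m : ℤ) ≤ y ∧ y < m) (n : ℕ) (hn : n ≤ 2 * m) :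
    Ch m (nd m (true, (-(m : ℤ) - 1 + n, y))) none := by
  induction n with
  | zero =>
    rw [nd_eq_none]
    · exact Ch.refl _
    · rw [mem_PT]
      simp only
      push_cast
      omega
  | succ n ih =>
    have h1 := ih (by omega)
    have hb1 : (((-(m : ℤ) + n, y), 1) : Pt × ZMod 6) ∈ EB m := by
      rw [mem_EB, mem_BX]
      refine ⟨?_, Or.inr (Or.inl rfl)⟩
      simp only
      omega
    have hb2 : (((-(m : ℤ) + n + 1, y), 2) : Pt × ZMod 6) ∈ EB m := by
      rw [mem_EB, mem_BX]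
      refine ⟨?_, Or.inr (Or.inr rfl)⟩
      simp only
      omega
    have h2 := Ch.edge hb1
    have h3 := Ch.edge hb2
    rw [show (1 : ZMod 6) - 1 = 0 by decide, t0, t1] at h2
    rw [show (2 : ZMod 6) - 1 = 1 by decide, t1, t2] at h3
    simp only at h2 h3
    have e1 : -(m : ℤ) + n - 1 = -(m : ℤ) - 1 + n := by ring
    have e2 : -(m : ℤ) + n + 1 - 1 = -(m : ℤ) + n := by ring
    have e3 : -(m : ℤ) - 1 + ((n + 1 : ℕ) : ℤ) = -(m : ℤ) + n := by push_cast; ring
    rw [e1] at h2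
    rw [e2] at h3
    rw [e3]
    exact (h3.symm.trans (h2.symm.trans h1))

lemma ch_up {m : ℕ} (y : ℤ) (hy : -(m : ℤ) ≤ y ∧ y < m) (n : ℕ) (hn : n < 2 * m) :
    Ch m (nd m (false, (-(m : ℤ) + n, y))) none := by
  have h1 := ch_down y hy n (by omega)
  have hb1 : (((-(m : ℤ) + n, y), 1) : Pt × ZMod 6) ∈ EB m := by
    rw [mem_EB, mem_BX]
    refine ⟨?_, Or.inr (Or.inl rfl)⟩
    simp only
    omega
  have h2 := Ch.edge hb1
  rw [show (1 : ZMod 6) - 1 = 0 by decide, t0, t1] at h2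
  simp only at h2
  have e1 : -(m : ℤ) + n - 1 = -(m : ℤ) - 1 + n := by ring
  rw [e1] at h2
  exact h2.symm.trans h1

lemma ch_none {m : ℕ} (x : NN m) : Ch m x none := by
  rcases x with _ | ⟨⟨b, x, y⟩, hx⟩
  · exact Ch.refl _
  · have hm := mem_PT.1 hx
    simp only at hm
    have e : (some ⟨(b, (x, y)), hx⟩ : NN m) = nd m (b, (x, y)) := ((nd_eq_some hx).2 rfl).symm
    rw [e]
    cases b
    · have := ch_up y hm.2 (x + m).toNat (by omega)
      rwa [show -(m : ℤ) + ((x + m).toNat : ℤ) = x by omega] at this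
    · have := ch_down y hm.2 (x + m + 1).toNat (by omega)
      rwa [show -(m : ℤ) - 1 + ((x + m + 1).toNat : ℤ) = x by omega] at this

lemma conn (m : ℕ) (S : NN m → ZMod 2) (hS : ∑ x, S x = 0) :
    ∃ J : Finset (EE m), ∀ x, (GG m).bd J x = S x := by
  classical
  choose j hj using fun x : NN m => ch_none x
  refine ⟨univ.filter fun f => ∑ x, S x * j x f = 1, fun z => ?_⟩
  have h01 : ∀ a : ZMod 2, ∀ c : ZMod 2, (if a = 1 then c else 0) = a * c := by decide
  have h1 : (GG m).bd (univ.filter fun f => ∑ x, S x * j x f = 1) z =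
      ∑ f : EE m, (∑ x, S x * j x f) * inc m f.1 z := by
    unfold MG.bd
    rw [Finset.sum_filter]
    refine Finset.sum_congr rfl fun f _ => ?_
    rw [h01]
    rfl
  rw [h1]
  calc ∑ f : EE m, (∑ x, S x * j x f) * inc m f.1 z
      = ∑ f : EE m, ∑ x, S x * (j x f * inc m f.1 z) := by
        refine Finset.sum_congr rfl fun f _ => ?_
        rw [Finset.sum_mul]
        refine Finset.sum_congr rfl fun x _ => ?_
        ring
    _ = ∑ x, S x * ∑ f : EE m, j x f * inc m f.1 z := by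
        rw [Finset.sum_comm]
        refine Finset.sum_congr rfl fun x _ => ?_
        rw [Finset.mul_sum]
    _ = ∑ x, (S x * (if x = z then 1 else 0) + S x * (if (none : NN m) = z then 1 else 0)) := by
        refine Finset.sum_congr rfl fun x _ => ?_
        rw [hj, mul_add]
    _ = S z := by
        rw [Finset.sum_add_distrib, ← Finset.sum_mul, hS, zero_mul, add_zero]
        simp

/-! ### The set of odd nodes -/

/-- the patch triangles are odd -/
def TT (m : ℕ) (x : NN m) : ZMod 2 := if x.isSome then 1 else 0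

lemma sum_TT (m : ℕ) : ∑ x, TT m x = 0 := by
  rw [Fintype.sum_option]
  have h1 : TT m none = 0 := rfl
  have h2 : ∀ x : {x // x ∈ PT m}, TT m (some x) = 1 := fun x => rfl
  simp only [h1, h2, Finset.sum_const, Finset.card_univ, Fintype.card_coe, nsmul_eq_mul, mul_one,
    zero_add]
  have h3 : (PT m).card = 2 * ((2 * m) * (2 * m)) := by
    simp only [PT, Finset.card_product, Finset.card_univ, Fintype.card_bool, Int.card_Ico]
    have : ((m : ℤ) - -(m : ℤ)).toNat = 2 * m := by omega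
    rw [this]
  rw [h3]
  push_cast
  have : (2 : ZMod 2) = 0 := by decide
  rw [this, zero_mul]

/-- all edges form a `T`-join -/
lemma bd_univ (m : ℕ) (x : NN m) : (GG m).bd univ x = TT m x := by
  have hind : ∀ b ∈ EB m, ind (univ : Finset (EE m)) b = 1 := fun b hb => by
    unfold ind
    rw [dif_pos hb, if_pos (Finset.mem_univ _)]
  have hsome : ∀ y, (GG m).bd univ (some y) = 1 := by
    rintro ⟨⟨b, x, y⟩, hx⟩
    rw [bd_eq]
    have hm := mem_PT.1 hx
    simp only at hm
    have h3 : (1 : ZMod 2) + 1 + 1 = 1 := by decide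
    cases b
    · rw [bj_up, hind, hind, hind, h3]
      · rw [mem_EB, mem_BX]; simp only; refine ⟨by omega, by decide⟩
      · rw [mem_EB, mem_BX]; simp only; refine ⟨by omega, by decide⟩
      · rw [mem_EB, mem_BX]; simp only; refine ⟨by omega, by decide⟩
    · rw [bj_down, hind, hind, hind, h3]
      · rw [mem_EB, mem_BX]; simp only; refine ⟨by omega, by decide⟩
      · rw [mem_EB, mem_BX]; simp only; refine ⟨by omega, by decide⟩
      · rw [mem_EB, mem_BX]; simp only; refine ⟨by omega, by decide⟩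
  rcases x with _ | y
  · -- handshake
    have h1 : ∑ x, (GG m).bd univ x = 0 := by
      unfold MG.bd
      rw [Finset.sum_comm]
      apply Finset.sum_eq_zero
      intro f _
      rw [Finset.sum_add_distrib]
      simp only [Finset.sum_ite_eq, Finset.mem_univ, if_true]
      decide
    have h2 := sum_TT m
    rw [Fintype.sum_option] at h1 h2
    have h4 : ∀ y, TT m (some y) = 1 := fun y => rfl
    simp only [hsome] at h1
    simp only [h4] at h2
    exact add_right_cancel (h1.trans h2.symm)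
  · rw [hsome]
    rfl

/-! ### Crossing edges and the packing -/

/-- the weight of an edge -/
def cw (V : Finset Pt) (w : Pt → ℕ) (v : Pt) (k : ZMod 6) : ℕ :=
  if v ∈ V ∧ v + e k ∈ V then min (w v) (w (v + e k)) else 0

lemma cw_opp (V : Finset Pt) (w : Pt → ℕ) (v : Pt) (k : ZMod 6) :
    cw V w (v + e k) (k + 3) = cw V w v k := by
  unfold cw
  rw [add_opp]
  by_cases h1 : v ∈ V <;> by_cases h2 : v + e k ∈ V <;> simp [h1, h2, min_comm]

lemma cw_even {V : Finset Pt} {w : Pt → ℕ} (hw : ∀ v, Even (w v)) (v : Pt) (k : ZMod 6) :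
    Even (cw V w v k) := by
  unfold cw
  split_ifs
  · rcases min_choice (w v) (w (v + e k)) with h | h <;> rw [h] <;> exact hw _
  · exact Even.zero

/-- all points of `V` are far from the boundary of the patch -/
def Inner (V : Finset Pt) (m : ℕ) : Prop :=
  ∀ v ∈ V, (-(m : ℤ) + 2 ≤ v.1 ∧ v.1 ≤ m - 2) ∧ (-(m : ℤ) + 2 ≤ v.2 ∧ v.2 ≤ m - 2)

lemma exists_inner (V : Finset Pt) : ∃ m, Inner V m := by
  obtain ⟨s, hs⟩ : ∃ s, ∀ v ∈ V, v.1.natAbs + v.2.natAbs ≤ s :=
    ⟨∑ v ∈ V, (v.1.natAbs + v.2.natAbs), fun v hv =>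
      Finset.single_le_sum (f := fun v : Pt => v.1.natAbs + v.2.natAbs)
        (fun _ _ => Nat.zero_le _) hv⟩
  refine ⟨2 + s, fun v hv => ?_⟩
  have h := hs v hv
  push_cast
  omega

lemma e_small (k : ZMod 6) : (-1 ≤ (e k).1 ∧ (e k).1 ≤ 1) ∧ (-1 ≤ (e k).2 ∧ (e k).2 ≤ 1) := by
  revert k; decide

lemma Inner.box {V : Finset Pt} {m : ℕ} (h : Inner V m) {v : Pt} (hv : v ∈ V) : v ∈ BX m := by
  rw [mem_BX]
  have := h v hv
  omega

lemma Inner.box' {V : Finset Pt} {m : ℕ} (h : Inner V m) {v : Pt} (hv : v ∈ V) (k : ZMod 6) :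
    v + e k ∈ BX m := by
  rw [mem_BX]
  have h1 := h v hv
  have h2 := e_small k
  simp only [Prod.fst_add, Prod.snd_add]
  omega

lemma dir_cases (k : ZMod 6) : (k = 0 ∨ k = 1 ∨ k = 2) ∨
    (k + 3 = 0 ∨ k + 3 = 1 ∨ k + 3 = 2) := by
  revert k; decide

/-- membership of the triangle `t v k` -/
def mm {m : ℕ} (U : Finset (NN m)) (v : Pt) (k : ZMod 6) : Bool := decide (nd m (t v k) ∈ U)

lemma mm_true {m : ℕ} {U : Finset (NN m)} {v : Pt} {k : ZMod 6} :
    mm U v k = true ↔ nd m (t v k) ∈ U := by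
  simp [mm]

lemma mm_false {m : ℕ} {U : Finset (NN m)} {v : Pt} {k : ZMod 6} :
    mm U v k = false ↔ nd m (t v k) ∉ U := by
  simp [mm]

/-- the edge between `v` and `v + e k` -/
lemma edge_exists {V : Finset Pt} (w : Pt → ℕ) {m : ℕ} (h : Inner V m) {v : Pt} (hv : v ∈ V)
    (k : ZMod 6) : ∃ f : EE m, cw V w f.1.1 f.1.2 = cw V w v k ∧ ∀ U : Finset (NN m),
      (GG m).Crosses U f ↔ mm U v k ≠ mm U v (k - 1) := by
  have key : ∀ (v : Pt) (k : ZMod 6) (hb : (v, k) ∈ EB m) (U : Finset (NN m)),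
      (GG m).Crosses U ⟨(v, k), hb⟩ ↔ mm U v k ≠ mm U v (k - 1) := by
    intro v k hb U
    unfold MG.Crosses mm
    simp only [GG, ne_eq, decide_eq_decide]
  rcases dir_cases k with hk | hk
  · exact ⟨⟨(v, k), mem_EB.2 ⟨h.box hv, hk⟩⟩, rfl, fun U => key _ _ _ U⟩
  · refine ⟨⟨(v + e k, k + 3), mem_EB.2 ⟨h.box' hv k, hk⟩⟩, cw_opp V w v k, fun U => ?_⟩
    rw [key]
    have e1 : mm U (v + e k) (k + 3) = mm U v (k - 1) := by
      unfold mm
      rw [t_compat']
    have e2 : mm U (v + e k) (k + 3 - 1) = mm U v k := by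
      unfold mm
      have : k + 3 - 1 = k + 2 := by ring
      rw [this, t_compat]
    rw [e1, e2]
    exact ne_comm

/-- the number of crossing edges is odd -/
lemma odd_crosses {m : ℕ} (U : Finset (NN m)) (hU : ∑ x ∈ U, TT m x = 1) :
    Odd (univ.filter fun f : EE m => mm U f.1.1 f.1.2 ≠ mm U f.1.1 (f.1.2 - 1)).card := by
  classical
  have h1 : ∑ x ∈ U, (GG m).bd univ x = 1 := by
    simp only [bd_univ]
    exact hU
  have h2 : ∑ x ∈ U, (GG m).bd univ x =
      ((univ.filter fun f : EE m => mm U f.1.1 f.1.2 ≠ mm U f.1.1 (f.1.2 - 1)).card : ZMod 2) := by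
    unfold MG.bd
    rw [Finset.sum_comm, Finset.card_filter]
    push_cast
    refine Finset.sum_congr rfl fun f _ => ?_
    rw [Finset.sum_add_distrib]
    simp only [Finset.sum_ite_eq]
    change (if nd m (t f.1.1 f.1.2) ∈ U then (1 : ZMod 2) else 0) +
      (if nd m (t f.1.1 (f.1.2 - 1)) ∈ U then 1 else 0) = _
    by_cases ha : nd m (t f.1.1 f.1.2) ∈ U <;> by_cases hb : nd m (t f.1.1 (f.1.2 - 1)) ∈ U <;>
      simp [mm, ha, hb, two_eq]
  rw [h2] at h1
  rw [← ZMod.natCast_eq_one_iff_odd]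
  exact h1

/-- directed boundary edges -/
def DB (V : Finset Pt) {m : ℕ} (U : Finset (NN m)) : Finset (Pt × ZMod 6) :=
  (V ×ˢ (univ : Finset (ZMod 6))).filter
    (fun b => mm U b.1 b.2 = true ∧ mm U b.1 (b.2 - 1) = false)

lemma mm_compat {m : ℕ} (U : Finset (NN m)) (v : Pt) (k : ZMod 6) :
    mm U (v + e k) (k + 2) = mm U v k := by
  unfold mm
  rw [t_compat]

lemma mm_compat' {m : ℕ} (U : Finset (NN m)) (v : Pt) (k : ZMod 6) :
    mm U (v + e k) (k + 3) = mm U v (k - 1) := by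
  unfold mm
  rw [t_compat']

lemma card_DB {V : Finset Pt} {m : ℕ} (h : Inner V m) (U : Finset (NN m))
    (hc : ∀ f : EE m, mm U f.1.1 f.1.2 ≠ mm U f.1.1 (f.1.2 - 1) →
      f.1.1 ∈ V ∧ f.1.1 + e f.1.2 ∈ V) :
    (univ.filter fun f : EE m => mm U f.1.1 f.1.2 ≠ mm U f.1.1 (f.1.2 - 1)).card =
      (DB V U).card := by
  classical
  refine Finset.card_bij (fun f _ => if mm U f.1.1 f.1.2 = true then f.1 else
    (f.1.1 + e f.1.2, f.1.2 + 3)) ?_ ?_ ?_
  · intro f hf
    rw [Finset.mem_filter] at hf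
    have hV := hc f hf.2
    unfold DB
    rw [Finset.mem_filter, Finset.mem_product]
    split_ifs with h1
    · refine ⟨⟨hV.1, Finset.mem_univ _⟩, h1, ?_⟩
      have := hf.2
      rw [h1] at this
      cases h2 : mm U f.1.1 (f.1.2 - 1)
      · rfl
      · exact absurd h2.symm this
    · refine ⟨⟨hV.2, Finset.mem_univ _⟩, ?_, ?_⟩
      · simp only
        rw [mm_compat']
        have := hf.2
        rw [Bool.not_eq_true] at h1
        rw [h1] at this
        cases h2 : mm U f.1.1 (f.1.2 - 1)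
        · exact absurd h2.symm this
        · rfl
      · simp only
        rw [show f.1.2 + 3 - 1 = f.1.2 + 2 by ring, mm_compat]
        exact Bool.not_eq_true _ ▸ h1
  · intro f _ g _ hfg
    have hf2 := (mem_EB.1 f.2).2
    have hg2 := (mem_EB.1 g.2).2
    have hdir : ∀ a b : ZMod 6, (a = 0 ∨ a = 1 ∨ a = 2) → (b = 0 ∨ b = 1 ∨ b = 2) →
        a ≠ b + 3 := by decide
    split_ifs at hfg with h1 h2 h2
    · exact Subtype.ext hfg
    · exfalso
      exact hdir _ _ hf2 hg2 (by rw [hfg])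
    · exfalso
      exact hdir _ _ hg2 hf2 (by rw [← hfg])
    · apply Subtype.ext
      have h3 : f.1.2 = g.1.2 := by
        have := congrArg Prod.snd hfg
        simpa using this
      have h4 : f.1.1 = g.1.1 := by
        have := congrArg Prod.fst hfg
        simp only [h3] at this
        exact add_right_cancel this
      exact Prod.ext h4 h3
  · intro b hb
    unfold DB at hb
    rw [Finset.mem_filter, Finset.mem_product] at hb
    obtain ⟨⟨hbV, _⟩, hb1, hb2⟩ := hb
    rcases dir_cases b.2 with hk | hk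
    · refine ⟨⟨b, mem_EB.2 ⟨h.box hbV, hk⟩⟩, ?_, ?_⟩
      · rw [Finset.mem_filter]
        refine ⟨Finset.mem_univ _, ?_⟩
        simp only
        rw [hb1, hb2]
        decide
      · simp only
        rw [if_pos hb1]
    · refine ⟨⟨(b.1 + e b.2, b.2 + 3), mem_EB.2 ⟨h.box' hbV _, hk⟩⟩, ?_, ?_⟩
      · rw [Finset.mem_filter]
        refine ⟨Finset.mem_univ _, ?_⟩
        simp only
        rw [show b.2 + 3 - 1 = b.2 + 2 by ring, mm_compat, mm_compat', hb1, hb2]
        decide
      · simp only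
        rw [mm_compat', hb2, if_neg (by decide), add_opp]
        ext
        · rfl
        · rfl
        · simp only
          have : ∀ a : ZMod 6, a + 3 + 3 = a := by decide
          exact this _

/-! ### The potential -/

/-- the potential -/
def pot (m : ℕ) (f : Pt × ZMod 6 → ZMod 2) (x y : ℤ) : ZMod 2 :=
  ∑ i ∈ range (y + m).toNat, f ((-(m : ℤ), -(m : ℤ) + i), 1) +
    ∑ i ∈ range (x + m).toNat, f ((-(m : ℤ) + i, y), 0)

lemma pot0 (m : ℕ) (f : Pt × ZMod 6 → ZMod 2) (x y : ℤ) (hx : -(m : ℤ) ≤ x) :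
    pot m f (x + 1) y = pot m f x y + f ((x, y), 0) := by
  unfold pot
  rw [show (x + 1 + m).toNat = (x + m).toNat + 1 by omega, Finset.sum_range_succ,
    show -(m : ℤ) + ((x + m).toNat : ℤ) = x by omega, add_assoc]

lemma pot1 (m : ℕ) (f : Pt × ZMod 6 → ZMod 2) (y : ℤ) (hy : -(m : ℤ) ≤ y ∧ y < m)
    (hup : ∀ x, -(m : ℤ) ≤ x → x < m → f ((x, y), 0) + f ((x, y), 1) + f ((x + 1, y), 2) = 0)
    (hdn : ∀ x, -(m : ℤ) ≤ x → x < m →
      f ((x, y + 1), 0) + f ((x + 1, y), 1) + f ((x + 1, y), 2) = 0)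
    (n : ℕ) (hn : n ≤ 2 * m) :
    pot m f (-(m : ℤ) + n) (y + 1) + pot m f (-(m : ℤ) + n) y = f ((-(m : ℤ) + n, y), 1) := by
  induction n with
  | zero =>
    unfold pot
    simp only [Nat.cast_zero, add_zero]
    rw [show (-(m : ℤ) + m).toNat = 0 by omega]
    simp only [Finset.range_zero, Finset.sum_empty, add_zero]
    rw [show (y + 1 + m).toNat = (y + m).toNat + 1 by omega, Finset.sum_range_succ,
      show -(m : ℤ) + ((y + m).toNat : ℤ) = y by omega]
    have := two_eq (∑ x ∈ range (y + m).toNat, f ((-(m : ℤ), -(m : ℤ) + x), 1))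
    linear_combination this
  | succ n ih =>
    have h1 := ih (by omega)
    have h2 := pot0 m f (-(m : ℤ) + n) y (by omega)
    have h3 := pot0 m f (-(m : ℤ) + n) (y + 1) (by omega)
    have h4 := hup (-(m : ℤ) + n) (by omega) (by omega)
    have h5 := hdn (-(m : ℤ) + n) (by omega) (by omega)
    rw [show (-(m : ℤ) + ((n + 1 : ℕ) : ℤ)) = -(m : ℤ) + n + 1 by push_cast; ring, h2, h3]
    have h6 := two_eq (f ((-(m : ℤ) + n, y), 0))
    have h7 := two_eq (f ((-(m : ℤ) + n, y), 1))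
    have h8 := two_eq (f ((-(m : ℤ) + n + 1, y), 1))
    have h9 := two_eq (f ((-(m : ℤ) + n + 1, y), 2))
    linear_combination h1 + h4 + h5 - h8 - h9

lemma pot2 (m : ℕ) (f : Pt × ZMod 6 → ZMod 2) (y : ℤ) (hy : -(m : ℤ) ≤ y ∧ y < m)
    (hup : ∀ x, -(m : ℤ) ≤ x → x < m → f ((x, y), 0) + f ((x, y), 1) + f ((x + 1, y), 2) = 0)
    (hdn : ∀ x, -(m : ℤ) ≤ x → x < m →
      f ((x, y + 1), 0) + f ((x + 1, y), 1) + f ((x + 1, y), 2) = 0)
    (n : ℕ) (hn : n < 2 * m) :
    pot m f (-(m : ℤ) + n) (y + 1) + pot m f (-(m : ℤ) + n + 1) y =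
      f ((-(m : ℤ) + n + 1, y), 2) := by
  have h1 := pot1 m f y hy hup hdn n (by omega)
  have h2 := pot0 m f (-(m : ℤ) + n) y (by omega)
  have h4 := hup (-(m : ℤ) + n) (by omega) (by omega)
  rw [h2]
  have h9 := two_eq (f ((-(m : ℤ) + n + 1, y), 2))
  linear_combination h1 + h4 - h9

/-- The colour of a point. -/
def potP (m : ℕ) (f : Pt × ZMod 6 → ZMod 2) (v : Pt) : ZMod 2 := pot m f v.1 v.2

lemma potP_edge {V : Finset Pt} {m : ℕ} (h : Inner V m) (f : Pt × ZMod 6 → ZMod 2)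
    (hup : ∀ x y, ((false, (x, y)) : Tr) ∈ PT m →
      f ((x, y), 0) + f ((x, y), 1) + f ((x + 1, y), 2) = 0)
    (hdn : ∀ x y, ((true, (x, y)) : Tr) ∈ PT m →
      f ((x, y + 1), 0) + f ((x + 1, y), 1) + f ((x + 1, y), 2) = 0)
    {v : Pt} (hv : v ∈ V) (k : ZMod 6) (hk : k = 0 ∨ k = 1 ∨ k = 2) :
    potP m f v + potP m f (v + e k) = f (v, k) := by
  obtain ⟨x, y⟩ := v
  have hi := h _ hv
  simp only at hi
  have hup' : ∀ x, -(m : ℤ) ≤ x → x < m → f ((x, y), 0) + f ((x, y), 1) + f ((x + 1, y), 2) = 0 :=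
    fun x hx1 hx2 => hup x y (mem_PT.2 (by simp only; omega))
  have hdn' : ∀ x, -(m : ℤ) ≤ x → x < m →
      f ((x, y + 1), 0) + f ((x + 1, y), 1) + f ((x + 1, y), 2) = 0 :=
    fun x hx1 hx2 => hdn x y (mem_PT.2 (by simp only; omega))
  rcases hk with rfl | rfl | rfl
  · have h1 := pot0 m f x y (by omega)
    change pot m f x y + pot m f (x + 1) (y + 0) = _
    rw [add_zero, h1]
    have := two_eq (pot m f x y)
    linear_combination this
  · have h1 := pot1 m f y (by omega) hup' hdn' (x + m).toNat (by omega)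
    rw [show -(m : ℤ) + ((x + m).toNat : ℤ) = x by omega] at h1
    change pot m f x y + pot m f (x + 0) (y + 1) = _
    rw [add_zero, ← h1]
    ring
  · have h1 := pot2 m f y (by omega) hup' hdn' (x - 1 + m).toNat (by omega)
    rw [show -(m : ℤ) + ((x - 1 + m).toNat : ℤ) = x - 1 by omega,
      show x - 1 + 1 = x by ring] at h1
    change pot m f x y + pot m f (x + (-1)) (y + 1) = _
    rw [← h1, ← sub_eq_add_neg]
    ring

/-! ### Conclusion -/

lemma sum_image_le' {α : Type} [DecidableEq α] (s : Finset α) (g : α → Pt) (w : Pt → ℕ) :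
    ∑ v ∈ s.image g, w v ≤ ∑ x ∈ s, w (g x) := by
  classical
  induction s using Finset.induction_on with
  | empty => simp
  | insert a s ha ih =>
    rw [Finset.image_insert, Finset.sum_insert ha]
    by_cases h : g a ∈ s.image g
    · rw [Finset.insert_eq_of_mem h]
      exact ih.trans (Nat.le_add_left _ _)
    · rw [Finset.sum_insert h]
      exact Nat.add_le_add_left ih _

end

end Pool.Agent.H171R2.Tri.T2

namespace Pool.Agent.H171R2.Tri

open Finset T2

theorem t2 (h1 : Stmt_T1) : Stmt_T2 := by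
  classical
  intro V w hw
  obtain ⟨m, hm⟩ := exists_inner V
  obtain ⟨K, U, hT, hc, hlam, J, hJ, hJK⟩ := h1 (NN m) (EE m) inferInstance inferInstance
    inferInstance inferInstance (GG m) (fun f => cw V w f.1.1 f.1.2) (TT m) (conn m) (sum_TT m)
    (fun f => cw_even hw _ _)
  have hcross : ∀ (i : Fin K) (f : EE m), (GG m).Crosses (U i) f →
      1 ≤ cw V w f.1.1 f.1.2 := by
    intro i f hf
    refine le_trans ?_ (hc f)
    rw [Nat.one_le_iff_ne_zero]
    intro h0
    have := Finset.card_eq_zero.1 h0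
    have h2 : i ∈ (univ.filter (fun i => (GG m).Crosses (U i) f)) := by
      rw [Finset.mem_filter]
      exact ⟨Finset.mem_univ _, hf⟩
    rw [this] at h2
    exact absurd h2 (Finset.notMem_empty _)
  have hcr : ∀ (i : Fin K) (f : EE m), (GG m).Crosses (U i) f ↔
      mm (U i) f.1.1 f.1.2 ≠ mm (U i) f.1.1 (f.1.2 - 1) := by
    intro i f
    unfold MG.Crosses mm
    simp only [GG, ne_eq, decide_eq_decide]
  refine ⟨K, ⟨⟨fun i v k => mm (U i) v k, ?_, ?_, ?_, ?_, ?_⟩⟩, ?_⟩
  · intro i v k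
    exact mm_compat (U i) v k
  · intro i v hv k hk
    obtain ⟨f, hf, hcf⟩ := edge_exists w hm hv k
    by_contra hne
    have h2 := hcross i f ((hcf (U i)).2 hne)
    rw [hf] at h2
    unfold cw at h2
    rw [if_neg (fun h => hk h.2)] at h2
    omega
  · intro v hv k hk
    obtain ⟨f, hf, hcf⟩ := edge_exists w hm hv k
    have h2 := hc f
    rw [hf] at h2
    unfold cw at h2
    rw [if_pos ⟨hv, hk⟩] at h2
    refine le_trans (le_of_eq ?_) (h2.trans (min_le_left _ _))
    congr 1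
    ext i
    simp only [Finset.mem_filter, Finset.mem_univ, true_and]
    exact (hcf (U i)).symm
  · intro i j hij
    rcases hlam i j hij with h | h
    · left
      intro v k hv
      exact mm_true.2 (h (mm_true.1 hv))
    · right
      intro v k hv
      exact mm_false.2 (Finset.disjoint_left.1 h (mm_true.1 hv))
  · intro i
    have h3 := odd_crosses (U i) (hT i)
    rw [card_DB hm (U i)] at h3
    · exact h3
    · intro f hf
      have h4 := hcross i f ((hcr i f).2 hf)
      unfold cw at h4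
      by_contra hne
      rw [if_neg hne] at h4
      omega
  · -- the colouring
    set J' : Finset (EE m) := J.filter fun f => f.1.1 ∈ V ∧ f.1.1 + e f.1.2 ∈ V with hJ'
    set pick : EE m → Pt := fun f => if w f.1.1 ≤ w (f.1.1 + e f.1.2) then f.1.1
      else f.1.1 + e f.1.2 with hpick
    have hpick' : ∀ f ∈ J', w (pick f) = cw V w f.1.1 f.1.2 := by
      intro f hf
      rw [hJ', Finset.mem_filter] at hf
      unfold cw
      rw [if_pos hf.2]
      simp only [hpick]
      split_ifs with h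
      · rw [min_eq_left h]
      · rw [min_eq_right (le_of_not_ge h)]
    refine ⟨J'.image pick, ?_, fun v => decide (potP m (fun b => 1 + ind J b) v = 1), ?_, ?_⟩
    · intro v hv
      rw [Finset.mem_image] at hv
      obtain ⟨f, hf, rfl⟩ := hv
      rw [hJ', Finset.mem_filter] at hf
      simp only [hpick]
      split_ifs
      · exact hf.2.1
      · exact hf.2.2
    · -- edges of the rest
      have hbd : ∀ x, bj m (ind J) x = TT m x := fun x => by
        rw [← bd_eq]
        exact hJ x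
      have hup : ∀ x y, ((false, (x, y)) : Tr) ∈ PT m →
          (1 + ind J ((x, y), 0)) + (1 + ind J ((x, y), 1)) + (1 + ind J ((x + 1, y), 2)) = 0 := by
        intro x y hxy
        have h2 := hbd (some ⟨_, hxy⟩)
        rw [bj_up] at h2
        have h3 : TT m (some ⟨_, hxy⟩) = 1 := rfl
        have h4 := two_eq (1 : ZMod 2)
        linear_combination h2 + h3 + 2 * h4
      have hdn : ∀ x y, ((true, (x, y)) : Tr) ∈ PT m →
          (1 + ind J ((x, y + 1), 0)) + (1 + ind J ((x + 1, y), 1)) +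
            (1 + ind J ((x + 1, y), 2)) = 0 := by
        intro x y hxy
        have h2 := hbd (some ⟨_, hxy⟩)
        rw [bj_down] at h2
        have h3 : TT m (some ⟨_, hxy⟩) = 1 := rfl
        have h4 := two_eq (1 : ZMod 2)
        linear_combination h2 + h3 + 2 * h4
      -- the main case
      have key : ∀ u, u ∈ V \ J'.image pick → ∀ k : ZMod 6, (k = 0 ∨ k = 1 ∨ k = 2) →
          u + e k ∈ V \ J'.image pick →
          potP m (fun b => 1 + ind J b) u + potP m (fun b => 1 + ind J b) (u + e k) = 1 := by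
        intro u hu k hk huk
        rw [Finset.mem_sdiff] at hu huk
        rw [potP_edge hm (fun b => 1 + ind J b) hup hdn hu.1 k hk]
        have hb : (u, k) ∈ EB m := mem_EB.2 ⟨hm.box hu.1, hk⟩
        have : ind J (u, k) = 0 := by
          have h2 := ind_coe J ⟨(u, k), hb⟩
          rw [h2, if_neg]
          intro hin
          have h3 : (⟨(u, k), hb⟩ : EE m) ∈ J' := by
            rw [hJ', Finset.mem_filter]
            exact ⟨hin, hu.1, huk.1⟩
          have h4 := Finset.mem_image_of_mem pick h3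
          simp only [hpick] at h4
          split_ifs at h4
          · exact hu.2 h4
          · exact huk.2 h4
        rw [this, add_zero]
      have h01 : ∀ a b : ZMod 2, a + b = 1 → decide (a = 1) ≠ decide (b = 1) := by decide
      intro u hu k huk
      rcases dir_cases k with hk | hk
      · exact h01 _ _ (key u hu k hk huk)
      · have h2 := key (u + e k) huk (k + 3) hk (by rw [add_opp]; exact hu)
        rw [add_opp] at h2
        exact (h01 _ _ h2).symm
    · calc ∑ v ∈ J'.image pick, w v ≤ ∑ f ∈ J', w (pick f) := sum_image_le' _ _ _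
        _ = ∑ f ∈ J', cw V w f.1.1 f.1.2 := Finset.sum_congr rfl hpick'
        _ ≤ ∑ f ∈ J, cw V w f.1.1 f.1.2 :=
            Finset.sum_le_sum_of_subset (Finset.filter_subset _ _)
        _ ≤ K := hJK

end Pool.Agent.H171R2.Tri
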